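import Pool.Agent.Lib.MP_50b5e1_nt.Defs

/-!
# MASS: the window argument
Let `N = m₁+k₁`, `D = m₂-m₁ ≥ k₁`, `w = k₁+k₂-1`, `W = ∏_{l=1}^{w} (D - k₁ + l)` = product of the `w` consecutive integers
`D + j - i` (`1 ≤ i ≤ k₁`, `1 ≤ j ≤ k₂`), i.e. `blockProd (D-k₁) w = w! * choose (D-k₁+w) w`, `D - k₁ + w = D + k₂ - 1`.

For a prime `p > k₁` dividing `P₁ = blockProd m₁ k₁ = blockProd m₂ k₂` there is a unique `i ≤ k₁` with `p ∣ m₁+i` and a unique `j ≤ k₂` with
`p ∣ m₂+j`; so `v = v_p(P₁) = v_p(m₁+i) = v_p(m₂+j)` and `p^v ∣ D+j-i`, so `v ≤ v_p(W)`.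
For `p ≤ k₁`: `v_p(P₁) = v_p(k₁!) + v_p(choose N k₁)`, `p^{v_p(choose N k₁)} ≤ N` (`Nat.pow_factorization_choose_le`).
For `k₁ < p ≤ w < 2 k₁`: `v_p(w!) = 1`.
So compare the factorizations: `choose N k₁ · w!` divides `(∏_{p ≤ k₁} p^{v_p(choose N k₁)}) · (∏_{k₁<p≤w} p) · W` (check each prime: `p ≤ k₁`: `v_p(choose) + v_p(w!) ≤
v_p(choose) + v_p(W)` as `w! ∣ W`; `k₁ < p ≤ w`: `v_p(choose N k₁) + 1 ≤ 1 + v_p(W)`; `p > w`: `v_p(choose N k₁) ≤ v_p(W)`; note `v_p(P₁) = v_p(choose N k₁)` for
`p > k₁`), and `∏_{k₁<p≤w} p ≤ primorial w ≤ 4^w`.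
-/

set_option autoImplicit false

namespace Pool.Agent.Lib.MP_50b5e1_nt

private theorem exists_single {m k p : ℕ} (hk : k < p)
    (hd : (blockProd m k).factorization p ≠ 0) :
    ∃ i, 1 ≤ i ∧ i ≤ k ∧ (blockProd m k).factorization p = (m + i).factorization p := by
  have hne : ∀ x ∈ Finset.Icc 1 k, m + x ≠ 0 := by
    intro x hx
    have := (Finset.mem_Icc.1 hx).1
    omega
  have h1 : (blockProd m k).factorization p =
      ∑ x ∈ Finset.Icc 1 k, (m + x).factorization p := by
    unfold blockProd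
    rw [Nat.factorization_prod hne, Finsupp.finsetSum_apply]
  rw [h1] at hd
  obtain ⟨i, hi, hi0⟩ := Finset.exists_ne_zero_of_sum_ne_zero hd
  have hi' := Finset.mem_Icc.1 hi
  refine ⟨i, hi'.1, hi'.2, ?_⟩
  rw [h1]
  refine Finset.sum_eq_single i ?_ (fun h => absurd hi h)
  intro j hj hji
  have hj' := Finset.mem_Icc.1 hj
  by_contra hj0
  have hpi : p ∣ m + i := Nat.dvd_of_factorization_pos hi0
  have hpj : p ∣ m + j := Nat.dvd_of_factorization_pos hj0
  rcases lt_or_gt_of_ne hji with hlt | hlt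
  · have h2 : p ∣ (m + i) - (m + j) := Nat.dvd_sub hpi hpj
    have h3 : (m + i) - (m + j) = i - j := by omega
    rw [h3] at h2
    have h4 := Nat.le_of_dvd (by omega) h2
    omega
  · have h2 : p ∣ (m + j) - (m + i) := Nat.dvd_sub hpj hpi
    have h3 : (m + j) - (m + i) = j - i := by omega
    rw [h3] at h2
    have h4 := Nat.le_of_dvd (by omega) h2
    omega

/-- the key divisibility for large primes -/
theorem large_prime {m₁ k₁ m₂ k₂ : ℕ} (h : IsSol m₁ k₁ m₂ k₂) {p : ℕ} (hp : p.Prime)
    (hk : k₁ < p) :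
    (blockProd m₁ k₁).factorization p ≤
      (blockProd (m₂ - m₁ - k₁) (k₁ + k₂ - 1)).factorization p := by
  have hlt := h.lt
  obtain ⟨h1, h2, h3, h4⟩ := h
  by_cases h0 : (blockProd m₁ k₁).factorization p = 0
  · rw [h0]; exact Nat.zero_le _
  obtain ⟨i, hi1, hi2, hi3⟩ := exists_single hk h0
  have h0' := h0
  rw [h4] at h0'
  obtain ⟨j, hj1, hj2, hj3⟩ := exists_single (hlt.trans hk) h0'
  set v := (blockProd m₁ k₁).factorization p with hv
  rw [← h4] at hj3
  have hvi : p ^ v ∣ m₁ + i := by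
    rw [hi3]; exact Nat.ordProj_dvd _ _
  have hvj : p ^ v ∣ m₂ + j := by
    rw [hv, hj3]; exact Nat.ordProj_dvd _ _
  have hd : p ^ v ∣ (m₂ + j) - (m₁ + i) := Nat.dvd_sub hvj hvi
  have he : (m₂ + j) - (m₁ + i) = (m₂ - m₁ - k₁) + (k₁ + j - i) := by omega
  rw [he] at hd
  rw [← hp.pow_dvd_iff_le_factorization (blockProd_pos _ _).ne']
  refine hd.trans ?_
  unfold blockProd
  exact Finset.dvd_prod_of_mem (fun x => m₂ - m₁ - k₁ + x)
    (Finset.mem_Icc.2 ⟨by omega, by omega⟩)

theorem mass {m₁ k₁ m₂ k₂ : ℕ} (h : IsSol m₁ k₁ m₂ k₂) :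
    (m₁ + k₁).choose k₁ ≤ (m₁ + k₁) ^ (Nat.primeCounting k₁) * 4 ^ (k₁ + k₂ - 1) *
      (m₂ - m₁ + k₂ - 1).choose (k₁ + k₂ - 1) := by
  have hlt := h.lt
  have hlp := fun {p : ℕ} (hp : p.Prime) (hk : k₁ < p) => large_prime h hp hk
  obtain ⟨h1, h2, h3, h4⟩ := h
  set N := m₁ + k₁ with hN
  set w := k₁ + k₂ - 1 with hw
  set W := blockProd (m₂ - m₁ - k₁) w with hW
  set S := (Finset.range (k₁ + 1)).filter Nat.Prime with hS
  set A := ∏ p ∈ S, p ^ (N.choose k₁).factorization p with hA
  have hNpos : 0 < N := by omega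
  have hcpos : N.choose k₁ ≠ 0 := (Nat.choose_pos (by omega)).ne'
  have hWpos : W ≠ 0 := (blockProd_pos _ _).ne'
  have hApos : A ≠ 0 := by
    rw [hA, Finset.prod_ne_zero_iff]
    intro p hp
    exact pow_ne_zero _ ((Finset.mem_filter.1 hp).2.ne_zero)
  have hPpos : primorial w ≠ 0 := (primorial_pos w).ne'
  have hWeq : W = w.factorial * (m₂ - m₁ + k₂ - 1).choose w := by
    rw [hW, blockProd_eq]
    congr 2
    omega
  have hdiv : N.choose k₁ * w.factorial ∣ A * primorial w * W := by
    rw [← Nat.factorization_prime_le_iff_dvd (mul_ne_zero hcpos (Nat.factorial_ne_zero w))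
      (mul_ne_zero (mul_ne_zero hApos hPpos) hWpos)]
    intro p hp
    rw [Nat.factorization_mul hcpos (Nat.factorial_ne_zero w),
      Nat.factorization_mul (mul_ne_zero hApos hPpos) hWpos,
      Nat.factorization_mul hApos hPpos]
    simp only [Finsupp.add_apply]
    by_cases hpk : p ≤ k₁
    · have a1 : (N.choose k₁).factorization p ≤ A.factorization p := by
        rw [← hp.pow_dvd_iff_le_factorization hApos, hA]
        exact Finset.dvd_prod_of_mem (fun p => p ^ (N.choose k₁).factorization p)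
          (Finset.mem_filter.2 ⟨Finset.mem_range.2 (by omega), hp⟩)
      have a2 : (w.factorial).factorization p ≤ W.factorization p := by
        rw [hWeq]
        exact (Nat.factorization_le_iff_dvd (Nat.factorial_ne_zero w)
          (by rw [← hWeq]; exact hWpos)).2 (Dvd.intro _ rfl) p
      omega
    · have hpk' : k₁ < p := by omega
      have a1 : (N.choose k₁).factorization p ≤ W.factorization p := by
        refine le_trans ?_ (hlp hp hpk')
        rw [blockProd_eq]
        exact (Nat.factorization_le_iff_dvd hcpos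
          (mul_ne_zero (Nat.factorial_ne_zero _) hcpos)).2 (Dvd.intro_left _ rfl) p
      by_cases hpw : p ≤ w
      · have a2 : (w.factorial).factorization p ≤ 1 := by
          have hlog : Nat.log p w < 2 := by
            apply Nat.log_lt_of_lt_pow (by omega)
            have : 2 ≤ p := hp.two_le
            calc w < 2 * p := by omega
              _ ≤ p * p := Nat.mul_le_mul_right _ this
              _ = p ^ 2 := by ring
          rw [Nat.factorization_factorial hp hlog]
          simp only [Nat.Ico_succ_singleton, Finset.sum_singleton, pow_one]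
          have : w / p < 2 := by
            rw [Nat.div_lt_iff_lt_mul hp.pos]
            omega
          omega
        have a3 : 1 ≤ (primorial w).factorization p := by
          rw [← hp.pow_dvd_iff_le_factorization hPpos, pow_one]
          unfold primorial
          exact Finset.dvd_prod_of_mem (fun p => p)
            (Finset.mem_filter.2 ⟨Finset.mem_range.2 (by omega), hp⟩)
        omega
      · have a2 : (w.factorial).factorization p = 0 := by
          apply Nat.factorization_eq_zero_of_not_dvd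
          rw [hp.dvd_factorial]
          omega
        omega
  have hle := Nat.le_of_dvd (Nat.pos_of_ne_zero (mul_ne_zero (mul_ne_zero hApos hPpos) hWpos)) hdiv
  have hAle : A ≤ N ^ (Nat.primeCounting k₁) := by
    have hcard : Nat.primeCounting k₁ = S.card := by
      rw [Nat.primeCounting, Nat.primeCounting', Nat.count_eq_card_filter_range]
    rw [hcard, hA]
    refine Finset.prod_le_pow_card _ _ _ ?_
    intro p _
    exact Nat.pow_factorization_choose_le hNpos
  have hPle : primorial w ≤ 4 ^ w := primorial_le_four_pow w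
  have hfin : w.factorial * N.choose k₁ ≤
      w.factorial * (N ^ (Nat.primeCounting k₁) * 4 ^ w * (m₂ - m₁ + k₂ - 1).choose w) := by
    calc w.factorial * N.choose k₁ = N.choose k₁ * w.factorial := by ring
      _ ≤ A * primorial w * W := hle
      _ ≤ N ^ (Nat.primeCounting k₁) * 4 ^ w * W :=
          Nat.mul_le_mul_right _ (Nat.mul_le_mul hAle hPle)
      _ = w.factorial * (N ^ (Nat.primeCounting k₁) * 4 ^ w * (m₂ - m₁ + k₂ - 1).choose w) := by
          rw [hWeq]; ring
  exact Nat.le_of_mul_le_mul_left hfin (Nat.factorial_pos w)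

end Pool.Agent.Lib.MP_50b5e1_nt
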