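import Pool.Agent.Lib.MP_50b5e1_nt.Defs

/-!
# SIZE: comparison of sizes
`∏_{j ≤ k₂} (m₂+j) = ∏_{i ≤ k₂} (m₁+i) · ∏_{k₂ < i ≤ k₁} (m₁+i)`, each quotient `(m₂+j)/(m₁+j) = 1 + D/(m₁+j) ≥ 1 + D/N`, and
the last product is at most `N^(k₁-k₂)`, `N = m₁+k₁`, `D = m₂ - m₁`.
-/

set_option autoImplicit false

namespace Pool.Agent.Lib.MP_50b5e1_nt

private theorem blockProd_add_le (m k d : ℕ) :
    blockProd m (k + d) ≤ blockProd m k * (m + (k + d)) ^ d := by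
  induction d with
  | zero => simp
  | succ d ih =>
    have h1 : blockProd m (k + (d + 1)) = blockProd m (k + d) * (m + (k + (d + 1))) := by
      unfold blockProd
      rw [← add_assoc, Finset.prod_Icc_succ_top (by omega)]
    rw [h1]
    calc blockProd m (k + d) * (m + (k + (d + 1)))
        ≤ blockProd m k * (m + (k + d)) ^ d * (m + (k + (d + 1))) :=
          Nat.mul_le_mul_right _ ih
      _ ≤ blockProd m k * (m + (k + (d + 1))) ^ d * (m + (k + (d + 1))) := by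
          refine Nat.mul_le_mul_right _ (Nat.mul_le_mul_left _ (Nat.pow_le_pow_left ?_ d))
          omega
      _ = blockProd m k * (m + (k + (d + 1))) ^ (d + 1) := by
          rw [pow_succ]; ring

theorem size {m₁ k₁ m₂ k₂ : ℕ} (h : IsSol m₁ k₁ m₂ k₂) :
    (k₂ : ℝ) * Real.log (1 + ((m₂ : ℝ) - m₁) / (m₁ + k₁)) ≤
      ((k₁ : ℝ) - k₂) * Real.log (m₁ + k₁) := by
  have hlt := h.lt
  obtain ⟨h1, h2, h3, h4⟩ := h
  have hN : (0 : ℝ) < (m₁ : ℝ) + k₁ := by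
    have : (0 : ℝ) < k₁ := by exact_mod_cast (by omega : 0 < k₁)
    positivity
  have hD : (0 : ℝ) ≤ (m₂ : ℝ) - m₁ := by
    have : (m₁ : ℝ) ≤ m₂ := by exact_mod_cast (by omega : m₁ ≤ m₂)
    linarith
  set c : ℝ := 1 + ((m₂ : ℝ) - m₁) / (m₁ + k₁) with hc
  have hc1 : 1 ≤ c := by
    rw [hc]
    have := div_nonneg hD hN.le
    linarith
  have hc0 : 0 < c := by linarith
  have hB0 : (0 : ℝ) < blockProd m₁ k₂ := by exact_mod_cast blockProd_pos _ _
  have s1 : (blockProd m₁ k₂ : ℝ) * c ^ k₂ ≤ blockProd m₂ k₂ := by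
    have e : (blockProd m₁ k₂ : ℝ) * c ^ k₂ = ∏ i ∈ Finset.Icc 1 k₂, ((m₁ : ℝ) + i) * c := by
      rw [Finset.prod_mul_distrib, Finset.prod_const, Nat.card_Icc]
      unfold blockProd
      push_cast
      simp
    rw [e]
    unfold blockProd
    push_cast
    refine Finset.prod_le_prod (fun i _ => by positivity) ?_
    intro i hi
    have hi' := Finset.mem_Icc.1 hi
    have h5 : (m₁ : ℝ) + i ≤ m₁ + k₁ := by
      have : (i : ℝ) ≤ k₁ := by exact_mod_cast (by omega : i ≤ k₁)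
      linarith
    have h6 : ((m₁ : ℝ) + i) * (((m₂ : ℝ) - m₁) / (m₁ + k₁)) ≤ (m₂ : ℝ) - m₁ := by
      rw [mul_div_assoc', div_le_iff₀ hN]
      calc ((m₁ : ℝ) + i) * ((m₂ : ℝ) - m₁) ≤ (m₁ + k₁) * ((m₂ : ℝ) - m₁) :=
            mul_le_mul_of_nonneg_right h5 hD
        _ = _ := by ring
    rw [hc]
    linarith
  have s2 : (blockProd m₁ k₁ : ℝ) ≤ blockProd m₁ k₂ * ((m₁ : ℝ) + k₁) ^ (k₁ - k₂) := by
    have := blockProd_add_le m₁ k₂ (k₁ - k₂)
    rw [show k₂ + (k₁ - k₂) = k₁ by omega] at this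
    exact_mod_cast this
  rw [h4] at s2
  have s3 : c ^ k₂ ≤ ((m₁ : ℝ) + k₁) ^ (k₁ - k₂) :=
    le_of_mul_le_mul_left (s1.trans s2) hB0
  have s4 := Real.log_le_log (by positivity) s3
  rw [Real.log_pow, Real.log_pow, Nat.cast_sub hlt.le] at s4
  exact s4

end Pool.Agent.Lib.MP_50b5e1_nt
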