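import Pool.Agent.Lib.MP_50b5e1_nt.Defs

/-!
# TWO: the lengths are nearly equal
`v₂(P(m₁,k₁)) ≥ v₂(k₁!) = k₁ - s₂(k₁) ≥ k₁ - (log₂ k₁ + 1)` (`Nat.sub_one_mul_padicValNat_factorial`, digit sum in base 2 at most the number of
digits), `v₂(P(m₂,k₂)) = v₂(k₂!) + v₂(choose) ≤ k₂ - 1 + log₂ (m₂+k₂)` (`Nat.factorization_choose_le_log`).
-/

set_option autoImplicit false

namespace Pool.Agent.Lib.MP_50b5e1_nt

theorem two_adic {m₁ k₁ m₂ k₂ : ℕ} (h : IsSol m₁ k₁ m₂ k₂) :
    k₁ ≤ k₂ + Nat.log 2 (m₂ + k₂) + Nat.log 2 k₁ := by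
  obtain ⟨h1, h2, h3, h4⟩ := h
  have : Fact (Nat.Prime 2) := ⟨Nat.prime_two⟩
  have hv1 : padicValNat 2 (k₁.factorial) = k₁ - (Nat.digits 2 k₁).sum := by
    have := sub_one_mul_padicValNat_factorial (p := 2) k₁
    simpa using this
  have hv2 : padicValNat 2 (k₂.factorial) = k₂ - (Nat.digits 2 k₂).sum := by
    have := sub_one_mul_padicValNat_factorial (p := 2) k₂
    simpa using this
  have hd1 : (Nat.digits 2 k₁).sum ≤ Nat.log 2 k₁ + 1 := by
    rw [← Nat.length_digits 2 k₁ (by norm_num) (by omega)]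
    have := List.sum_le_card_nsmul (Nat.digits 2 k₁) 1 (fun x hx => by
      have := Nat.digits_lt_base (by norm_num : 1 < 2) hx
      omega)
    simpa using this
  have hd2 : 1 ≤ (Nat.digits 2 k₂).sum := by
    have hk : k₂ ≠ 0 := by omega
    have hne : Nat.digits 2 k₂ ≠ [] := Nat.digits_ne_nil_iff_ne_zero.2 hk
    have h5 := Nat.getLast_digit_ne_zero 2 hk
    have h6 := List.getLast_mem hne
    have h7 := List.single_le_sum (fun x _ => Nat.zero_le x) _ h6
    omega
  have e1 : padicValNat 2 (blockProd m₁ k₁) =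
      padicValNat 2 (k₁.factorial) + padicValNat 2 ((m₁ + k₁).choose k₁) := by
    rw [blockProd_eq, padicValNat.mul (Nat.factorial_ne_zero _)
      (Nat.choose_pos (by omega)).ne']
  have e2 : padicValNat 2 (blockProd m₂ k₂) =
      padicValNat 2 (k₂.factorial) + padicValNat 2 ((m₂ + k₂).choose k₂) := by
    rw [blockProd_eq, padicValNat.mul (Nat.factorial_ne_zero _)
      (Nat.choose_pos (by omega)).ne']
  have hc : padicValNat 2 ((m₂ + k₂).choose k₂) ≤ Nat.log 2 (m₂ + k₂) := by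
    rw [← Nat.factorization_def _ Nat.prime_two]
    exact Nat.factorization_choose_le_log
  rw [h4] at e1
  omega

end Pool.Agent.Lib.MP_50b5e1_nt
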