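import Pool.Agent.Lib.MP_50b5e1_nt.Cheb
import Pool.Agent.Lib.MP_50b5e1_nt.Two
import Pool.Agent.Lib.MP_50b5e1_nt.Mass
import Pool.Agent.Lib.MP_50b5e1_nt.Size

/-!
# ANA: the bound for the lengths
Write `L = log m₂` (`m₂ ≥ k₁ ≥ 5`), `N = m₁+k₁ ≤ m₂`, `D = m₂-m₁ ≥ k₁`, `K = k₁`, `k = k₂`, `K < 2 m₂`.
1. `two_adic`: `K - k ≤ C₁ L` (`m₂ + k₂ ≤ 2 m₂`).
2. `size`: `k log (1 + D/N) ≤ C₁ L²`.
3. If `D ≥ N`: `k ≤ 2 C₁ L² ≤ C m₂^(1/3) L^(4/3)`.
4. If `D < N`: `log (1 + D/N) ≥ D/(2N)`, so `k D ≤ 2 C₁ N L²`.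
5. If `K < N^(1/4)`: `k ≤ m₂^(1/4)`.
6. If `K ≥ N^(1/4)`: `π(K) log N ≤ 4 π(K) log K ≤ C₂ K`. `mass` with `choose N K ≥ (N/K)^K` and `choose n r ≤ (e n/r)^r` for
`n = D+k-1 ≤ 2D`, `r = K+k-1 ∈ [K, 2K]`, `r ≤ n`: `(e n/r)^r ≤ (2eD/K)^(2K)` (`2eD/K ≥ 1`).  So `K log (N/K) ≤ C₂ K + 2K log 4 + 2K log (2eD/K)`, i.e.
`N K ≤ C₃ D²`.  With 4: `k² N K ≤ C₃ k² D² ≤ C₄ N² L⁴`, so `k³ ≤ k² K ≤ C₄ N L⁴ ≤ C₄ m₂ L⁴`.
(`Nat.choose_le_pow_div`, `Nat.pow_le_choose`, or `r! ≥ (r/e)^r`.)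
-/

set_option autoImplicit false

namespace Pool.Agent.Lib.MP_50b5e1_nt

private theorem choose_upper {n r : ℕ} (hr : 0 < r) :
    (n.choose r : ℝ) ≤ (Real.exp 1 * n / r) ^ r := by
  have h1 : (n.choose r : ℝ) ≤ (n : ℝ) ^ r / r.factorial := Nat.choose_le_pow_div r n
  have hr' : (0 : ℝ) < r := by exact_mod_cast hr
  have h2 : (r : ℝ) ^ r / r.factorial ≤ Real.exp r := Real.pow_div_factorial_le_exp _ hr'.le r
  have hf : (0 : ℝ) < r.factorial := by exact_mod_cast Nat.factorial_pos r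
  calc (n.choose r : ℝ) ≤ (n : ℝ) ^ r / r.factorial := h1
    _ = ((n : ℝ) / r) ^ r * ((r : ℝ) ^ r / r.factorial) := by
        rw [div_pow]; field_simp
    _ ≤ ((n : ℝ) / r) ^ r * Real.exp r := mul_le_mul_of_nonneg_left h2 (by positivity)
    _ = (Real.exp 1 * n / r) ^ r := by
        have : Real.exp (r : ℝ) = Real.exp 1 ^ r := by
          rw [← Real.exp_nat_mul, mul_one]
        rw [this, ← mul_pow]
        congr 1
        ring

private theorem choose_lower {m K : ℕ} (hK : 0 < K) (hm : K ≤ m) :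
    (((m : ℝ) + K) / (2 * K)) ^ K ≤ ((m + K).choose K : ℝ) := by
  have h1 : (((m + K + 1 - K : ℕ) : ℝ) ^ K) / K.factorial ≤ ((m + K).choose K : ℝ) :=
    Nat.pow_le_choose K (m + K)
  have h2 : (K.factorial : ℝ) ≤ (K : ℝ) ^ K := by exact_mod_cast Nat.factorial_le_pow K
  have hK' : (0 : ℝ) < K := by exact_mod_cast hK
  have hm' : (K : ℝ) ≤ m := by exact_mod_cast hm
  have hf : (0 : ℝ) < K.factorial := by exact_mod_cast Nat.factorial_pos K
  have e : m + K + 1 - K = m + 1 := by omega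
  rw [e] at h1
  calc (((m : ℝ) + K) / (2 * K)) ^ K ≤ (((m + 1 : ℕ) : ℝ) / K) ^ K := by
        refine pow_le_pow_left₀ (by positivity) ?_ K
        rw [div_le_div_iff₀ (by positivity) hK']
        push_cast
        nlinarith
    _ = ((m + 1 : ℕ) : ℝ) ^ K / (K : ℝ) ^ K := div_pow _ _ _
    _ ≤ ((m + 1 : ℕ) : ℝ) ^ K / K.factorial :=
        div_le_div_of_nonneg_left (by positivity) hf h2
    _ ≤ _ := h1

private theorem natlog_le (n : ℕ) (hn : n ≠ 0) : (Nat.log 2 n : ℝ) * Real.log 2 ≤ Real.log n := by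
  have h1 : 2 ^ (Nat.log 2 n) ≤ n := Nat.pow_log_le_self 2 hn
  have h2 : ((2 : ℝ)) ^ (Nat.log 2 n) ≤ n := by exact_mod_cast h1
  have h3 := Real.log_le_log (by positivity) h2
  rwa [Real.log_pow] at h3

private theorem diff_bound {m₁ k₁ m₂ k₂ : ℕ} (h : IsSol m₁ k₁ m₂ k₂) (hL : 1 ≤ Real.log m₂) :
    (k₁ : ℝ) - k₂ ≤ 4 * Real.log m₂ := by
  have h2 := two_adic h
  have hlt := h.lt
  obtain ⟨h1, -, h3, -⟩ := h
  have hm : (0 : ℝ) < m₂ := by exact_mod_cast (by omega : 0 < m₂)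
  have hl2 : 0.6931471803 < Real.log 2 := Real.log_two_gt_d9
  have a1 := natlog_le (m₂ + k₂) (by omega)
  have a2 := natlog_le k₁ (by omega)
  have a3 : Real.log ((m₂ + k₂ : ℕ) : ℝ) ≤ Real.log m₂ + Real.log 2 := by
    rw [← Real.log_mul hm.ne' (by norm_num)]
    apply Real.log_le_log
    · exact_mod_cast (by omega : 0 < m₂ + k₂)
    · have : m₂ + k₂ ≤ m₂ * 2 := by omega
      exact_mod_cast this
  have a4 : Real.log (k₁ : ℝ) ≤ Real.log m₂ := by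
    apply Real.log_le_log
    · exact_mod_cast (by omega : 0 < k₁)
    · exact_mod_cast (by omega : k₁ ≤ m₂)
  have h2' : (k₁ : ℝ) ≤ k₂ + Nat.log 2 (m₂ + k₂) + Nat.log 2 k₁ := by exact_mod_cast h2
  set x : ℝ := (Nat.log 2 (m₂ + k₂) : ℝ) with hx
  set y : ℝ := (Nat.log 2 k₁ : ℝ) with hy
  have hx0 : 0 ≤ x := by positivity
  have hy0 : 0 ≤ y := by positivity
  have b1 : (x + y) * Real.log 2 ≤ 2 * Real.log m₂ + Real.log 2 := by linarith
  have b2 : (x + y - 1) * Real.log 2 ≤ 2 * Real.log m₂ := by linarith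
  have b3 : x + y - 1 ≤ 3 * Real.log m₂ := by
    by_contra hcon
    push Not at hcon
    nlinarith
  linarith

private theorem cube_bound : ∃ C : ℝ, 0 < C ∧ ∀ m₁ k₁ m₂ k₂ : ℕ, IsSol m₁ k₁ m₂ k₂ →
    0 ≤ Real.log m₂ ∧ (k₂ : ℝ) ^ 3 ≤ C * m₂ * (Real.log m₂) ^ 4 := by
  obtain ⟨C₀, hC₀, hpi⟩ := primeCounting_bound
  set A : ℝ := Real.exp (4 * C₀ + 2 * Real.log 4) with hA
  have hA1 : 1 ≤ A := by
    rw [hA]
    apply Real.one_le_exp
    have : 0 < Real.log 4 := Real.log_pos (by norm_num)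
    positivity
  set B : ℝ := 8 * Real.exp 1 ^ 2 * A with hB
  have he1 : 1 ≤ Real.exp 1 := Real.one_le_exp (by norm_num)
  have hB2 : 2 ≤ B := by
    rw [hB]
    have : 1 ≤ Real.exp 1 ^ 2 := one_le_pow₀ he1
    nlinarith
  refine ⟨2048 + 64 * B, by positivity, ?_⟩
  intro m₁ k₁ m₂ k₂ h
  have hsize := size h
  have hmass := mass h
  have hlt := h.lt
  have h1 := h.1
  have h2 := h.2.1
  have h3 := h.2.2.1
  have hm5 : (5 : ℝ) ≤ m₂ := by exact_mod_cast (by omega : 5 ≤ m₂)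
  have hL1 : 1 ≤ Real.log m₂ := by
    rw [Real.le_log_iff_exp_le (by linarith)]
    have := Real.exp_one_lt_d9
    linarith
  have hdiff := diff_bound h hL1
  set L : ℝ := Real.log m₂ with hLdef
  have hm0 : (0 : ℝ) < m₂ := by linarith
  refine ⟨by linarith, ?_⟩
  set N : ℝ := (m₁ : ℝ) + k₁ with hN
  set D : ℝ := (m₂ : ℝ) - m₁ with hD
  have hk1 : (5 : ℝ) ≤ k₁ := by exact_mod_cast (by omega : 5 ≤ k₁)
  have hk2 : (4 : ℝ) ≤ k₂ := by exact_mod_cast (by omega : 4 ≤ k₂)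
  have hkK : (k₂ : ℝ) ≤ k₁ := by exact_mod_cast hlt.le
  have hm1 : (0 : ℝ) ≤ m₁ := by positivity
  have hN0 : 0 < N := by linarith
  have hNm : N ≤ m₂ := by rw [hN]; exact_mod_cast h3
  have hDK : (k₁ : ℝ) ≤ D := by linarith
  have hD0 : 0 < D := by linarith
  have hlogN : Real.log N ≤ L := Real.log_le_log hN0 hNm
  have hlogN0 : 0 ≤ Real.log N := Real.log_nonneg (by linarith)
  have hL4 : 1 ≤ L ^ 4 := one_le_pow₀ hL1
  -- step 2
  have st2 : (k₂ : ℝ) * Real.log (1 + D / N) ≤ 4 * L ^ 2 := by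
    refine hsize.trans ?_
    calc ((k₁ : ℝ) - k₂) * Real.log N ≤ (4 * L) * L := by
          refine mul_le_mul hdiff hlogN hlogN0 (by linarith)
      _ = 4 * L ^ 2 := by ring
  have hbig : ∀ c : ℝ, 0 ≤ c → c ≤ 2048 + 64 * B → (k₂ : ℝ) ^ 3 ≤ c * (m₂ * L ^ 4) →
      (k₂ : ℝ) ^ 3 ≤ (2048 + 64 * B) * m₂ * L ^ 4 := by
    intro c _ hc hk
    refine hk.trans ?_
    rw [mul_assoc]
    exact mul_le_mul_of_nonneg_right hc (by positivity)
  by_cases hDN : N ≤ D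
  · -- step 3
    have a1 : (1 : ℝ) / 2 ≤ Real.log (1 + D / N) := by
      have : (2 : ℝ) ≤ 1 + D / N := by
        have := (one_le_div hN0).2 hDN
        linarith
      have h5 := Real.log_le_log (by norm_num) this
      have := Real.log_two_gt_d9
      linarith
    have a2 : (k₂ : ℝ) ≤ 8 * L ^ 2 := by
      have := mul_le_mul_of_nonneg_left a1 (by linarith : (0 : ℝ) ≤ k₂)
      linarith
    have a3 : L ^ 2 ≤ 4 * m₂ := by
      have hs0 : 0 < √(m₂ : ℝ) := Real.sqrt_pos.2 hm0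
      have hsq : Real.log (√(m₂ : ℝ)) = L / 2 := Real.log_sqrt hm0.le
      have hls := Real.log_le_sub_one_of_pos hs0
      have hss : √(m₂ : ℝ) * √(m₂ : ℝ) = m₂ := Real.mul_self_sqrt hm0.le
      have h5 : L ≤ 2 * √(m₂ : ℝ) := by linarith
      calc L ^ 2 ≤ (2 * √(m₂ : ℝ)) ^ 2 := pow_le_pow_left₀ (by linarith) h5 2
        _ = 4 * m₂ := by linear_combination 4 * hss
    refine hbig 2048 (by norm_num) (by linarith) ?_
    calc (k₂ : ℝ) ^ 3 ≤ (8 * L ^ 2) ^ 3 := pow_le_pow_left₀ (by linarith) a2 3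
      _ = 512 * (L ^ 2 * L ^ 4) := by ring
      _ ≤ 512 * ((4 * m₂) * L ^ 4) := by
          refine mul_le_mul_of_nonneg_left ?_ (by norm_num)
          exact mul_le_mul_of_nonneg_right a3 (by positivity)
      _ = 2048 * (m₂ * L ^ 4) := by ring
  push Not at hDN
  -- step 4
  have st4 : (k₂ : ℝ) * D ≤ 8 * N * L ^ 2 := by
    have hx0 : 0 ≤ D / N := by positivity
    have hx1 : D / N ≤ 1 := (div_le_one hN0).2 hDN.le
    have a1 := Real.le_log_one_add_of_nonneg hx0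
    have a2 : D / N / 2 ≤ 2 * (D / N) / (D / N + 2) := by
      rw [div_le_div_iff₀ (by norm_num) (by linarith)]
      have h5 : D / N * (D / N) ≤ D / N * 1 := mul_le_mul_of_nonneg_left hx1 hx0
      linarith
    have a3 : (k₂ : ℝ) * (D / N / 2) ≤ 4 * L ^ 2 :=
      (mul_le_mul_of_nonneg_left (a2.trans a1) (by linarith)).trans st2
    have a4 : (k₂ : ℝ) * D = (k₂ : ℝ) * (D / N / 2) * (2 * N) := by
      field_simp
    rw [a4]
    calc (k₂ : ℝ) * (D / N / 2) * (2 * N) ≤ 4 * L ^ 2 * (2 * N) :=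
          mul_le_mul_of_nonneg_right a3 (by positivity)
      _ = 8 * N * L ^ 2 := by ring
  by_cases hKN : (k₁ : ℝ) ^ 4 < N
  · -- step 5
    refine hbig 1 (by norm_num) (by linarith) ?_
    have a1 : (k₂ : ℝ) ^ 3 ≤ (k₁ : ℝ) ^ 3 := pow_le_pow_left₀ (by linarith) hkK 3
    have a2 : (k₁ : ℝ) ^ 3 ≤ (k₁ : ℝ) ^ 4 := pow_le_pow_right₀ (by linarith) (by norm_num)
    have a3 : (m₂ : ℝ) * 1 ≤ m₂ * L ^ 4 := mul_le_mul_of_nonneg_left hL4 hm0.le
    linarith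
  push Not at hKN
  -- step 6
  have st6 : N * k₁ ≤ B * D ^ 2 := by
    by_cases hmK : m₁ < k₁
    · have a1 : (m₁ : ℝ) ≤ k₁ := by exact_mod_cast hmK.le
      have a2 : N * k₁ ≤ 2 * D ^ 2 := by
        have h5 : N ≤ 2 * k₁ := by linarith
        calc N * k₁ ≤ (2 * D) * D := mul_le_mul (by linarith) hDK (by linarith) (by linarith)
          _ = 2 * D ^ 2 := by ring
      have a3 : 2 * D ^ 2 ≤ B * D ^ 2 := mul_le_mul_of_nonneg_right hB2 (by positivity)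
      linarith
    push Not at hmK
    have hr0 : 0 < k₁ + k₂ - 1 := by omega
    have c1 := choose_lower (by omega : 0 < k₁) hmK
    have c2 := choose_upper (n := m₂ - m₁ + k₂ - 1) hr0
    have hmassR : (((m₁ + k₁).choose k₁ : ℕ) : ℝ) ≤ N ^ (Nat.primeCounting k₁) *
        4 ^ (k₁ + k₂ - 1) * (((m₂ - m₁ + k₂ - 1).choose (k₁ + k₂ - 1) : ℕ) : ℝ) := by
      rw [hN]
      exact_mod_cast hmass
    set E : ℝ := 2 * Real.exp 1 * D / k₁ with hE
    have hk0 : (0 : ℝ) < k₁ := by linarith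
    have hE1 : 1 ≤ E := by
      rw [hE, le_div_iff₀ hk0]
      have h5 : 1 * D ≤ (2 * Real.exp 1) * D :=
        mul_le_mul_of_nonneg_right (by linarith) hD0.le
      linarith
    have hE0 : 0 < E := by linarith
    have c3 : Real.exp 1 * ((m₂ - m₁ + k₂ - 1 : ℕ) : ℝ) / ((k₁ + k₂ - 1 : ℕ) : ℝ) ≤ E := by
      have b1 : ((m₂ - m₁ + k₂ - 1 : ℕ) : ℝ) ≤ 2 * D := by
        have : m₂ - m₁ + k₂ - 1 ≤ 2 * (m₂ - m₁) := by omega
        have h5 : ((m₂ - m₁ + k₂ - 1 : ℕ) : ℝ) ≤ ((2 * (m₂ - m₁) : ℕ) : ℝ) := by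
          exact_mod_cast this
        rw [Nat.cast_mul, Nat.cast_sub (by omega : m₁ ≤ m₂), Nat.cast_ofNat] at h5
        exact h5
      have b2 : (k₁ : ℝ) ≤ ((k₁ + k₂ - 1 : ℕ) : ℝ) := by
        exact_mod_cast (by omega : k₁ ≤ k₁ + k₂ - 1)
      rw [hE]
      calc Real.exp 1 * ((m₂ - m₁ + k₂ - 1 : ℕ) : ℝ) / ((k₁ + k₂ - 1 : ℕ) : ℝ)
          ≤ Real.exp 1 * (2 * D) / k₁ := by
            apply div_le_div₀ (by positivity) _ hk0 b2
            exact mul_le_mul_of_nonneg_left b1 (by positivity)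
        _ = 2 * Real.exp 1 * D / k₁ := by ring
    have hr2 : k₁ + k₂ - 1 ≤ 2 * k₁ := by omega
    have c4 : (((m₂ - m₁ + k₂ - 1).choose (k₁ + k₂ - 1) : ℕ) : ℝ) ≤ E ^ (2 * k₁) := by
      refine c2.trans ?_
      calc _ ≤ E ^ (k₁ + k₂ - 1) := pow_le_pow_left₀ (by positivity) c3 _
        _ ≤ E ^ (2 * k₁) := pow_le_pow_right₀ hE1 hr2
    have c5 : (4 : ℝ) ^ (k₁ + k₂ - 1) ≤ 4 ^ (2 * k₁) := pow_le_pow_right₀ (by norm_num) hr2
    have c6 : (N / (2 * k₁)) ^ k₁ ≤ N ^ (Nat.primeCounting k₁) * 4 ^ (2 * k₁) * E ^ (2 * k₁) := by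
      refine c1.trans (hmassR.trans ?_)
      refine mul_le_mul (mul_le_mul_of_nonneg_left c5 (by positivity)) c4 (by positivity)
        (by positivity)
    have c7 := Real.log_le_log (by positivity) c6
    rw [Real.log_mul (by positivity) (by positivity), Real.log_mul (by positivity) (by positivity),
      Real.log_pow, Real.log_pow, Real.log_pow, Real.log_pow] at c7
    push_cast at c7
    have c8 : Real.log N ≤ 4 * Real.log k₁ := by
      have := Real.log_le_log hN0 hKN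
      rw [Real.log_pow] at this
      exact_mod_cast this
    have c9 : (Nat.primeCounting k₁ : ℝ) * Real.log N ≤ 4 * C₀ * k₁ := by
      have h5 := hpi k₁
      calc (Nat.primeCounting k₁ : ℝ) * Real.log N ≤
            (Nat.primeCounting k₁ : ℝ) * (4 * Real.log k₁) :=
            mul_le_mul_of_nonneg_left c8 (by positivity)
        _ = 4 * ((Nat.primeCounting k₁ : ℝ) * Real.log k₁) := by ring
        _ ≤ 4 * (C₀ * k₁) := by linarith
        _ = 4 * C₀ * k₁ := by ring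
    have c10 : Real.log (N / (2 * k₁)) ≤ 4 * C₀ + 2 * Real.log 4 + 2 * Real.log E := by
      have : (k₁ : ℝ) * Real.log (N / (2 * k₁)) ≤
          k₁ * (4 * C₀ + 2 * Real.log 4 + 2 * Real.log E) := by
        linarith
      exact le_of_mul_le_mul_left this hk0
    have c11 : N / (2 * k₁) ≤ A * E ^ 2 := by
      have h5 : Real.log (N / (2 * k₁)) ≤ Real.log (A * E ^ 2) := by
        rw [Real.log_mul (by positivity) (by positivity), hA, Real.log_exp, Real.log_pow]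
        push_cast
        linarith
      exact (Real.log_le_log_iff (by positivity) (by positivity)).1 h5
    have c12 : N * k₁ = N / (2 * k₁) * (2 * k₁ ^ 2) := by field_simp
    rw [c12]
    calc N / (2 * k₁) * (2 * (k₁ : ℝ) ^ 2) ≤ A * E ^ 2 * (2 * (k₁ : ℝ) ^ 2) :=
          mul_le_mul_of_nonneg_right c11 (by positivity)
      _ = B * D ^ 2 := by
          rw [hE, hB]
          field_simp
          ring
  have st7 : ((k₂ : ℝ) * D) ^ 2 ≤ (8 * N * L ^ 2) ^ 2 :=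
    pow_le_pow_left₀ (by positivity) st4 2
  have st8 : N * ((k₂ : ℝ) ^ 2 * k₁) ≤ N * (64 * B * N * L ^ 4) := by
    calc N * ((k₂ : ℝ) ^ 2 * k₁) = (k₂ : ℝ) ^ 2 * (N * k₁) := by ring
      _ ≤ (k₂ : ℝ) ^ 2 * (B * D ^ 2) := mul_le_mul_of_nonneg_left st6 (by positivity)
      _ = B * ((k₂ : ℝ) * D) ^ 2 := by ring
      _ ≤ B * (8 * N * L ^ 2) ^ 2 := mul_le_mul_of_nonneg_left st7 (by positivity)
      _ = N * (64 * B * N * L ^ 4) := by ring
  have st9 : (k₂ : ℝ) ^ 2 * k₁ ≤ 64 * B * N * L ^ 4 := le_of_mul_le_mul_left st8 hN0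
  refine hbig (64 * B) (by positivity) (by linarith) ?_
  calc (k₂ : ℝ) ^ 3 = (k₂ : ℝ) ^ 2 * k₂ := by ring
    _ ≤ (k₂ : ℝ) ^ 2 * k₁ := mul_le_mul_of_nonneg_left hkK (by positivity)
    _ ≤ 64 * B * N * L ^ 4 := st9
    _ ≤ 64 * B * m₂ * L ^ 4 := by
        refine mul_le_mul_of_nonneg_right ?_ (by positivity)
        exact mul_le_mul_of_nonneg_left hNm (by positivity)
    _ = 64 * B * (m₂ * L ^ 4) := by ring

theorem length_bound : ∃ C : ℝ, 0 < C ∧ ∀ m₁ k₁ m₂ k₂ : ℕ, IsSol m₁ k₁ m₂ k₂ →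
    (k₂ : ℝ) ≤ C * (m₂ : ℝ) ^ (1 / 3 : ℝ) * (Real.log m₂) ^ (4 / 3 : ℝ) := by
  obtain ⟨C, hC, hmain⟩ := cube_bound
  refine ⟨C ^ (1 / 3 : ℝ), by positivity, fun m₁ k₁ m₂ k₂ h => ?_⟩
  obtain ⟨hL, hcube⟩ := hmain m₁ k₁ m₂ k₂ h
  have e1 : (k₂ : ℝ) = ((k₂ : ℝ) ^ 3) ^ (1 / 3 : ℝ) := by
    rw [← Real.rpow_natCast, ← Real.rpow_mul (by positivity)]
    norm_num
  have e2 : (C * m₂ * (Real.log m₂) ^ 4) ^ (1 / 3 : ℝ) =
      C ^ (1 / 3 : ℝ) * (m₂ : ℝ) ^ (1 / 3 : ℝ) * (Real.log m₂) ^ (4 / 3 : ℝ) := by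
    rw [Real.mul_rpow (by positivity) (by positivity), Real.mul_rpow (by positivity) (by positivity),
      ← Real.rpow_natCast (Real.log m₂) 4, ← Real.rpow_mul hL]
    norm_num
  rw [← e2]
  calc (k₂ : ℝ) = ((k₂ : ℝ) ^ 3) ^ (1 / 3 : ℝ) := e1
    _ ≤ _ := Real.rpow_le_rpow (by positivity) hcube (by norm_num)

end Pool.Agent.Lib.MP_50b5e1_nt
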