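import Mathlib

/-!
# CHEB: Chebyshev's upper bound for the number of primes
`primorial_le_4_pow`: `∏_{p ≤ n} p ≤ 4^n`, so `(π(n) - π(√n)) log √n ≤ n log 4`, and `√n log n ≤ 2n`.
-/

set_option autoImplicit false

namespace Pool.Agent.Lib.MP_50b5e1_nt

theorem primeCounting_bound : ∃ C : ℝ, 0 < C ∧ ∀ n : ℕ,
    (Nat.primeCounting n : ℝ) * Real.log n ≤ C * n := by
  have hl4 : 0 < Real.log 4 := Real.log_pos (by norm_num)
  refine ⟨2 * Real.log 4 + 2, by positivity, ?_⟩
  intro n
  rcases Nat.lt_or_ge n 2 with hn | hn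
  · interval_cases n
    · simp
    · simp
      positivity
  have hn1 : (1 : ℝ) < n := by exact_mod_cast hn
  have hn0 : (0 : ℝ) < n := by linarith
  have h1 := Chebyshev.pi_le_log4_mul_div hn1
  rw [Nat.floor_natCast] at h1
  have hlog : 0 < Real.log n := Real.log_pos hn1
  have hsq : Real.log (√(n : ℝ)) = Real.log n / 2 := Real.log_sqrt hn0.le
  have hs0 : 0 < √(n : ℝ) := Real.sqrt_pos.2 hn0
  have hls : Real.log (√(n : ℝ)) ≤ √(n : ℝ) := by
    have := Real.log_le_sub_one_of_pos hs0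
    linarith
  have hss : √(n : ℝ) * √(n : ℝ) = n := Real.mul_self_sqrt hn0.le
  calc (Nat.primeCounting n : ℝ) * Real.log n
      ≤ (Real.log 4 * n / Real.log (√(n : ℝ)) + √(n : ℝ)) * Real.log n :=
        mul_le_mul_of_nonneg_right h1 hlog.le
    _ = 2 * Real.log 4 * n + √(n : ℝ) * (2 * Real.log (√(n : ℝ))) := by
        rw [hsq]
        field_simp
    _ ≤ 2 * Real.log 4 * n + √(n : ℝ) * (2 * √(n : ℝ)) := by
        have := mul_le_mul_of_nonneg_left hls hs0.le
        nlinarith
    _ = (2 * Real.log 4 + 2) * n := by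
        linear_combination 2 * hss

end Pool.Agent.Lib.MP_50b5e1_nt
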