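import Mathlib

/-!
# Equal products of two disjoint blocks (MP_50b5e1_nt): definitions
-/

set_option autoImplicit false

namespace Pool.Agent.Lib.MP_50b5e1_nt

/-- `P(m,k) = (m+1)(m+2)⋯(m+k)` -/
def blockProd (m k : ℕ) : ℕ := ∏ i ∈ Finset.Icc 1 k, (m + i)

/-- `(m₁, k₁, m₂, k₂)` is a solution. -/
def IsSol (m₁ k₁ m₂ k₂ : ℕ) : Prop :=
  3 < k₁ ∧ 3 < k₂ ∧ m₁ + k₁ ≤ m₂ ∧ blockProd m₁ k₁ = blockProd m₂ k₂

theorem blockProd_eq (m k : ℕ) : blockProd m k = k.factorial * (m + k).choose k := by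
  unfold blockProd
  induction k with
  | zero => simp
  | succ n ih =>
    rw [Finset.prod_Icc_succ_top (by omega), ih]
    have h := Nat.add_one_mul_choose_eq (m + n) n
    rw [Nat.factorial_succ, ← add_assoc]
    calc n.factorial * (m + n).choose n * (m + n + 1)
        = n.factorial * ((m + n + 1) * (m + n).choose n) := by ring
      _ = n.factorial * ((m + n + 1).choose (n + 1) * (n + 1)) := by rw [h]
      _ = (n + 1) * n.factorial * (m + n + 1).choose (n + 1) := by ring

theorem blockProd_pos (m k : ℕ) : 0 < blockProd m k :=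
  Finset.prod_pos fun i hi => by
    have := (Finset.mem_Icc.1 hi).1
    omega

theorem IsSol.lt {m₁ k₁ m₂ k₂ : ℕ} (h : IsSol m₁ k₁ m₂ k₂) : k₂ < k₁ := by
  obtain ⟨h1, h2, h3, h4⟩ := h
  by_contra hcon
  push Not at hcon
  have h5 : blockProd m₁ k₁ < blockProd m₂ k₁ := by
    unfold blockProd
    refine Finset.prod_lt_prod_of_nonempty (fun i hi => ?_) (fun i hi => ?_) ?_
    · have := (Finset.mem_Icc.1 hi).1; omega
    · omega
    · exact ⟨1, by simp; omega⟩
  have h6 : blockProd m₂ k₁ ≤ blockProd m₂ k₂ := by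
    unfold blockProd
    refine Finset.prod_le_prod_of_subset_of_one_le' (Finset.Icc_subset_Icc_right hcon) ?_
    intro i hi _
    have := (Finset.mem_Icc.1 hi).1
    omega
  omega

end Pool.Agent.Lib.MP_50b5e1_nt
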