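import Pool.Agent.Lib.MP_50b5e1_nt.Ana

/-!
# FIN: finiteness for long blocks
-/

set_option autoImplicit false
open Filter Topology

namespace Pool.Agent.Lib.MP_50b5e1_nt

theorem finite_long (ε : ℝ) (hε : 0 < ε) :
    {q : ℕ × ℕ × ℕ × ℕ | IsSol q.1 q.2.1 q.2.2.1 q.2.2.2 ∧
      (q.2.2.1 : ℝ) ^ (1 / 3 + ε) ≤ (q.2.2.2 : ℝ)}.Finite := by
  obtain ⟨C, hC, h⟩ := length_bound
  -- m^ε > C (log m)^(4/3) eventually
  have h1 : ∀ᶠ x : ℝ in atTop, C * (Real.log x) ^ (4 / 3 : ℝ) < x ^ ε := by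
    have h2 := (isLittleO_log_rpow_rpow_atTop (4 / 3 : ℝ) hε).def (show 0 < 1 / (2 * C) by positivity)
    filter_upwards [h2, eventually_gt_atTop 1] with x hx hx1
    have hl : 0 < Real.log x := Real.log_pos hx1
    have hx0 : 0 < x := by linarith
    rw [Real.norm_of_nonneg (by positivity), Real.norm_of_nonneg (by positivity)] at hx
    have hp : 0 < x ^ ε := Real.rpow_pos_of_pos hx0 ε
    calc C * (Real.log x) ^ (4 / 3 : ℝ) ≤ C * (1 / (2 * C) * x ^ ε) := by gcongr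
      _ = x ^ ε / 2 := by field_simp
      _ < x ^ ε := by linarith
  obtain ⟨B, hB⟩ := eventually_atTop.1 h1
  have hsub : {q : ℕ × ℕ × ℕ × ℕ | IsSol q.1 q.2.1 q.2.2.1 q.2.2.2 ∧
      (q.2.2.1 : ℝ) ^ (1 / 3 + ε) ≤ (q.2.2.2 : ℝ)} ⊆
      (Set.Iic ⌈B⌉₊) ×ˢ (Set.Iic ⌈B⌉₊) ×ˢ (Set.Iic ⌈B⌉₊) ×ˢ (Set.Iic ⌈B⌉₊) := by
    rintro ⟨m₁, k₁, m₂, k₂⟩ ⟨hs, hq⟩
    simp only at hs hq
    have hlt := hs.lt
    obtain ⟨s1, s2, s3, s4⟩ := id hs
    have hm : m₂ ≤ ⌈B⌉₊ := by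
      by_contra hcon
      push Not at hcon
      have hBm : B ≤ (m₂ : ℝ) := (Nat.le_ceil B).trans (by exact_mod_cast hcon.le)
      have h3 := hB m₂ hBm
      have h4 := hq.trans (h m₁ k₁ m₂ k₂ hs)
      have hm0 : (0 : ℝ) < m₂ := by
        have : 0 < m₂ := by omega
        exact_mod_cast this
      rw [Real.rpow_add hm0] at h4
      have h5 : 0 < (m₂ : ℝ) ^ (1 / 3 : ℝ) := Real.rpow_pos_of_pos hm0 _
      nlinarith
    refine ⟨?_, ?_, ?_, ?_⟩ <;> simp only [Set.mem_Iic] <;> omega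
  refine Set.Finite.subset ?_ hsub
  exact (Set.finite_Iic _).prod ((Set.finite_Iic _).prod ((Set.finite_Iic _).prod (Set.finite_Iic _)))

end Pool.Agent.Lib.MP_50b5e1_nt
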